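import Mathlib
import Pool.Agent.V1128.Cap.Core

set_option autoImplicit false

namespace Pool.Agent.Results.MP_b1a016_al.Periodic

open Pool.Agent.V1128.Cap

universe u

/-- For every prime `p`, every non-abelian pro-`p` group `G` with `S̃(G) ≠ G` is periodic. -/
theorem result (p : ℕ) (hp : p.Prime) (G : Type u) [Group G] [TopologicalSpace G]
    [IsTopologicalGroup G] (hG : IsProP p G) (hS : STilde G ≠ ⊤) (hna : ∃ x y : G, x * y ≠ y * x)
    (g : G) : ∃ n : ℕ, 0 < n ∧ g ^ n = 1 := by
  obtain ⟨h1, h2, h3, h4⟩ := hG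
  exact isOfFinOrder_iff_pow_eq_one.mp (periodic hp h4 hS hna g)

end Pool.Agent.Results.MP_b1a016_al.Periodic
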